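import Pool.Agent.Helper89.OC.St2

set_option autoImplicit false

namespace Pool.Agent.Helper3.OC

open ComplexConjugate Pool.Agent.Helper89.OC

section
variable (n : ℕ) [NeZero n] (ζ : ℂ)

/-- the additive character -/
noncomputable def ee (a : ZMod n) : ℂ := ζ ^ a.val

theorem ee_zero : ee n ζ 0 = 1 := by simp [ee]

theorem ee_add (h : ζ ^ n = 1) (a b : ZMod n) : ee n ζ (a + b) = ee n ζ a * ee n ζ b := by
  unfold ee
  rw [← pow_add, ZMod.val_add, ← pow_eq_pow_mod _ h]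

theorem ee_norm (h : ζ ^ n = 1) (a : ZMod n) : ‖ee n ζ a‖ = 1 := by
  unfold ee
  rw [norm_pow, Complex.norm_eq_one_of_pow_eq_one h (NeZero.ne n), one_pow]

theorem ee_conj (h : ζ ^ n = 1) (a : ZMod n) : conj (ee n ζ a) = ee n ζ (-a) := by
  have h1 : ee n ζ a * ee n ζ (-a) = 1 := by
    rw [← ee_add n ζ h, add_neg_cancel, ee_zero]
  have h2 : ee n ζ a * conj (ee n ζ a) = 1 := by
    rw [Complex.mul_conj, Complex.normSq_eq_norm_sq, ee_norm n ζ h]
    simp
  have h3 : ee n ζ a ≠ 0 := fun h0 => by rw [h0, zero_mul] at h1; exact zero_ne_one h1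
  exact mul_left_cancel₀ h3 (h2.trans h1.symm)

theorem ee_sum (hn : n.Prime) (h : IsPrimitiveRoot ζ n) : ∑ a : ZMod n, ee n ζ a = 0 := by
  have h1 : ∑ a : ZMod n, ee n ζ a = ∑ i ∈ Finset.range n, ζ ^ i := by
    refine Finset.sum_bij' (fun a _ => a.val) (fun i _ => (i : ZMod n)) ?_ ?_ ?_ ?_ ?_
    · intro a _; exact Finset.mem_range.mpr (ZMod.val_lt a)
    · intro i _; exact Finset.mem_univ _
    · intro a _; exact ZMod.natCast_zmod_val a
    · intro i hi; exact ZMod.val_natCast_of_lt (Finset.mem_range.mp hi)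
    · intro a _; rfl
  rw [h1, h.geom_sum_eq_zero hn.one_lt]

theorem units_sum (hn : n.Prime) (f : ZMod n → ℂ) :
    ∑ c : (ZMod n)ˣ, f (c : ZMod n) = ∑ a, f a - f 0 := by
  classical
  haveI : Fact n.Prime := ⟨hn⟩
  have h1 : ∑ c : (ZMod n)ˣ, f (c : ZMod n) = ∑ a ∈ Finset.univ.erase (0 : ZMod n), f a := by
    refine Finset.sum_bij' (fun c _ => (c : ZMod n))
      (fun a ha => Units.mk0 a (Finset.ne_of_mem_erase ha)) ?_ ?_ ?_ ?_ ?_
    · intro c _; exact Finset.mem_erase.mpr ⟨c.ne_zero, Finset.mem_univ _⟩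
    · intro a _; exact Finset.mem_univ _
    · intro c _; ext; rfl
    · intro a _; rfl
    · intro c _; rfl
  rw [h1, ← Finset.add_sum_erase Finset.univ f (Finset.mem_univ 0)]
  ring

theorem inner (hn : n.Prime) (h : IsPrimitiveRoot ζ n) (y : ZMod n) :
    ∑ c : (ZMod n)ˣ, ee n ζ ((c : ZMod n) * y) = (if y = 0 then (n : ℂ) else 0) - 1 := by
  haveI : Fact n.Prime := ⟨hn⟩
  rw [units_sum n hn (fun a => ee n ζ (a * y))]
  by_cases hy : y = 0
  · subst hy
    simp [ee_zero]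
  · rw [if_neg hy]
    have h2 : ∑ a : ZMod n, ee n ζ (a * y) = ∑ a : ZMod n, ee n ζ a :=
      Fintype.sum_bijective (fun a : ZMod n => a * y) (mulRight_bijective₀ y hy) _ _
        (fun a => rfl)
    rw [h2, ee_sum n ζ hn h]
    simp [ee_zero]

theorem main (hn : n.Prime) (h : IsPrimitiveRoot ζ n) (m : (ZMod n)ˣ → ℤ) :
    ∑ c : (ZMod n)ˣ, ‖∑ x : (ZMod n)ˣ, (m x : ℂ) * ζ ^ ((c * x : (ZMod n)ˣ) : ZMod n).val‖ ^ 2 =
      (n : ℝ) * ∑ x, (m x : ℝ) ^ 2 - (∑ x, (m x : ℝ)) ^ 2 ∧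
    ∑ c : (ZMod n)ˣ, ∑ x : (ZMod n)ˣ, (m x : ℂ) * ζ ^ ((c * x : (ZMod n)ˣ) : ZMod n).val =
      -∑ x, (m x : ℂ) := by
  classical
  haveI : Fact n.Prime := ⟨hn⟩
  have hz : ζ ^ n = 1 := h.pow_eq_one
  have e1 : ∀ c x : (ZMod n)ˣ, ζ ^ ((c * x : (ZMod n)ˣ) : ZMod n).val =
      ee n ζ ((c : ZMod n) * (x : ZMod n)) := fun c x => by
    rw [Units.val_mul]; rfl
  simp only [e1]
  constructor
  · have key : ((∑ c : (ZMod n)ˣ, ‖∑ x : (ZMod n)ˣ, (m x : ℂ) *
        ee n ζ ((c : ZMod n) * (x : ZMod n))‖ ^ 2 : ℝ) : ℂ) =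
        (n : ℂ) * ∑ x, (m x : ℂ) ^ 2 - (∑ x, (m x : ℂ)) ^ 2 := by
      push_cast
      have h1 : ∀ c : (ZMod n)ˣ, ((‖∑ x : (ZMod n)ˣ, (m x : ℂ) *
          ee n ζ ((c : ZMod n) * (x : ZMod n))‖ : ℝ) : ℂ) ^ 2 =
          ∑ x : (ZMod n)ˣ, ∑ y : (ZMod n)ˣ, (m x : ℂ) * (m y : ℂ) *
            ee n ζ ((c : ZMod n) * ((x : ZMod n) - (y : ZMod n))) := fun c => by
        rw [← Complex.mul_conj', map_sum, Finset.sum_mul_sum]
        refine Finset.sum_congr rfl fun x _ => Finset.sum_congr rfl fun y _ => ?_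
        rw [map_mul, ee_conj n ζ hz, map_intCast, mul_sub, sub_eq_add_neg,
          ee_add n ζ hz]
        ring
      simp only [h1]
      rw [Finset.sum_comm]
      have h2 : ∀ x : (ZMod n)ˣ, ∑ c : (ZMod n)ˣ, ∑ y : (ZMod n)ˣ, (m x : ℂ) * (m y : ℂ) *
            ee n ζ ((c : ZMod n) * ((x : ZMod n) - (y : ZMod n))) =
          (n : ℂ) * (m x : ℂ) ^ 2 - (m x : ℂ) * ∑ y, (m y : ℂ) := fun x => by
        rw [Finset.sum_comm]
        have h3 : ∀ y : (ZMod n)ˣ, ∑ c : (ZMod n)ˣ, (m x : ℂ) * (m y : ℂ) *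
            ee n ζ ((c : ZMod n) * ((x : ZMod n) - (y : ZMod n))) =
            (if x = y then (n : ℂ) * (m x : ℂ) * (m y : ℂ) else 0) - (m x : ℂ) * (m y : ℂ) :=
          fun y => by
          rw [← Finset.mul_sum, inner n ζ hn h]
          by_cases hxy : x = y
          · subst hxy
            simp
            ring
          · have : (x : ZMod n) - (y : ZMod n) ≠ 0 := fun h0 => hxy (Units.ext (sub_eq_zero.mp h0))
            rw [if_neg this, if_neg hxy]
            ring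
        simp only [h3]
        rw [Finset.sum_sub_distrib, Finset.sum_ite_eq Finset.univ x, if_pos (Finset.mem_univ _),
          ← Finset.mul_sum]
        ring
      simp only [h2]
      rw [Finset.sum_sub_distrib, ← Finset.mul_sum, ← Finset.sum_mul]
      ring
    exact_mod_cast key
  · rw [Finset.sum_comm]
    have h4 : ∀ x : (ZMod n)ˣ, ∑ c : (ZMod n)ˣ, (m x : ℂ) *
        ee n ζ ((c : ZMod n) * (x : ZMod n)) = -(m x : ℂ) := fun x => by
      rw [← Finset.mul_sum, inner n ζ hn h, if_neg x.ne_zero]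
      ring
    simp only [h4, Finset.sum_neg_distrib]

end

theorem hPRV : StPRV := by
  intro p _ hp m
  haveI : NeZero (p ^ 1) := ⟨by simpa using hp.ne_zero⟩
  have hn : (p ^ 1).Prime := by simpa using hp
  have hz : IsPrimitiveRoot (zt p) (p ^ 1) := by
    rw [pow_one]
    exact Complex.isPrimitiveRoot_exp p hp.ne_zero
  have := main (p ^ 1) (zt p) hn hz m
  have hc : ((p ^ 1 : ℕ) : ℝ) = (p : ℝ) := by simp
  rw [hc] at this
  exact this

end Pool.Agent.Helper3.OC
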